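import Mathlib
import Pool.Agent.H.MP_505b57_nt.Main

namespace Pool.Agent.Results.MP_505b57_nt.QuadraticFinite

open Polynomial

/-- `f` and `g` are conjugate by an affine map `z ↦ a z + b`, `a ≠ 0`. -/
def AffConj {K : Type*} [Field K] (f g : K[X]) : Prop :=
  ∃ a b : K, a ≠ 0 ∧ g.comp (C a * X + C b) = C a * f + C b

/-- every finite critical point has a finite forward orbit -/
def PCF {K : Type*} [Field K] (f : K[X]) : Prop :=
  ∀ z : K, (derivative f).IsRoot z → (Set.range fun n : ℕ => (fun w => f.eval w)^[n] z).Finite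

/-- the normal-form parameter of a quadratic polynomial -/
noncomputable def par {K : Type*} [Field K] (f : K[X]) : K :=
  f.coeff 2 * f.coeff 0 + f.coeff 1 / 2 - (f.coeff 1) ^ 2 / 4

lemma quad_form {K : Type*} [Field K] (f : K[X]) (hf : f.natDegree = 2) :
    f = C (f.coeff 2) * X ^ 2 + C (f.coeff 1) * X + C (f.coeff 0) ∧ f.coeff 2 ≠ 0 := by
  constructor
  · conv_lhs => rw [f.as_sum_range_C_mul_X_pow, hf]
    simp [Finset.sum_range_succ]
    ring
  · rw [← hf]
    apply Polynomial.leadingCoeff_ne_zero.2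
    rintro rfl
    simp at hf

lemma conj_iff {K : Type*} [Field K] [CharZero K] (f g : K[X]) :
    AffConj f g ↔ ∃ a b : K, a ≠ 0 ∧ ∀ z, g.eval (a * z + b) = a * f.eval z + b := by
  constructor
  · rintro ⟨a, b, ha, h⟩
    refine ⟨a, b, ha, fun z => ?_⟩
    have := congrArg (eval z) h
    simpa [eval_comp] using this
  · rintro ⟨a, b, ha, h⟩
    refine ⟨a, b, ha, Polynomial.funext (fun z => ?_)⟩
    simpa [eval_comp] using h z

lemma conj_trans {K : Type*} [Field K] [CharZero K] {f g h : K[X]} (h1 : AffConj f g)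
    (h2 : AffConj g h) : AffConj f h := by
  rw [conj_iff] at *
  obtain ⟨a, b, ha, h1⟩ := h1
  obtain ⟨a', b', ha', h2⟩ := h2
  refine ⟨a' * a, a' * b + b', mul_ne_zero ha' ha, fun z => ?_⟩
  have := h2 (a * z + b)
  rw [h1] at this
  rw [show a' * a * z + (a' * b + b') = a' * (a * z + b) + b' by ring, this]
  ring

lemma conj_symm {K : Type*} [Field K] [CharZero K] {f g : K[X]} (h1 : AffConj f g) :
    AffConj g f := by
  rw [conj_iff] at *
  obtain ⟨a, b, ha, h1⟩ := h1
  refine ⟨a⁻¹, -(a⁻¹ * b), inv_ne_zero ha, fun z => ?_⟩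
  have := h1 (a⁻¹ * z + -(a⁻¹ * b))
  rw [show a * (a⁻¹ * z + -(a⁻¹ * b)) + b = z by field_simp; ring] at this
  rw [this]
  field_simp
  ring

lemma eval_quad {K : Type*} [Field K] (f : K[X]) (hf : f.natDegree = 2) (z : K) :
    f.eval z = f.coeff 2 * z ^ 2 + f.coeff 1 * z + f.coeff 0 := by
  conv_lhs => rw [(quad_form f hf).1]
  simp

lemma normal_eval {K : Type*} [Field K] [CharZero K] (f : K[X]) (hf : f.natDegree = 2) (z : K) :
    (f.coeff 2 * z + f.coeff 1 / 2) ^ 2 + par f = f.coeff 2 * f.eval z + f.coeff 1 / 2 := by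
  rw [eval_quad f hf, par]
  ring

lemma conj_normal {K : Type*} [Field K] [CharZero K] (f : K[X]) (hf : f.natDegree = 2) :
    AffConj f (X ^ 2 + C (par f)) := by
  rw [conj_iff]
  refine ⟨f.coeff 2, f.coeff 1 / 2, (quad_form f hf).2, fun z => ?_⟩
  simpa using normal_eval f hf z

lemma normal_unique {K : Type*} [Field K] [CharZero K] (c c' : K)
    (h : AffConj (X ^ 2 + C c) (X ^ 2 + C c')) : c = c' := by
  rw [conj_iff] at h
  obtain ⟨a, b, ha, h⟩ := h
  simp only [eval_add, eval_pow, eval_X, eval_C] at h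
  have h0 := h 0
  have h1 := h 1
  have h2 := h (-1)
  have hab : a * b = 0 := by linear_combination (h1 - h2) / 4
  have hb : b = 0 := (mul_eq_zero.1 hab).resolve_left ha
  subst hb
  have haa : a * (a - 1) = 0 := by linear_combination h1 - h0
  have ha1 : a = 1 := sub_eq_zero.1 ((mul_eq_zero.1 haa).resolve_left ha)
  subst ha1
  linear_combination -h0

lemma general (p : ℕ) [Fact p.Prime] (K : Type*) [Field K] [CharZero K] [Algebra ℚ_[p] K]
    [IsGalois ℚ_[p] K] :
    Set.Finite ((fun f : K[X] => {g : K[X] | AffConj f g}) ''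
        {f : K[X] | f.natDegree = 2 ∧ PCF f ∧
          ∀ σ : K ≃ₐ[ℚ_[p]] K, AffConj f (f.map (σ : K →+* K))}) := by
  refine ((Pool.Agent.H.MP_505b57_nt.finite_pcf (p := p)).image
    (fun c => {g : K[X] | AffConj (X ^ 2 + C (algebraMap ℚ_[p] K c)) g})).subset ?_
  rintro _ ⟨f, ⟨hdeg, hpcf, hgal⟩, rfl⟩
  have hfix : ∀ σ : K ≃ₐ[ℚ_[p]] K, σ (par f) = par f := by
    intro σ
    have hd : (f.map (σ : K →+* K)).natDegree = 2 := by
      rw [Polynomial.natDegree_map, hdeg]
    have h1 := normal_unique _ _ (conj_trans (conj_trans (conj_symm (conj_normal f hdeg))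
      (hgal σ)) (conj_normal _ hd))
    conv_rhs => rw [h1]
    simp [par, map_ofNat]
  obtain ⟨c, hc⟩ := (InfiniteGalois.mem_range_algebraMap_iff_fixed (k := ℚ_[p]) (par f)).2 hfix
  refine ⟨c, ?_, ?_⟩
  · have ha := (quad_form f hdeg).2
    set z0 : K := -(f.coeff 1 / 2) / f.coeff 2 with hz0
    have hroot : (derivative f).IsRoot z0 := by
      rw [(quad_form f hdeg).1]
      simp [hz0]
      field_simp
      ring
    have h1 := hpcf z0 hroot
    have h2 : ∀ n, f.coeff 2 * (fun w => f.eval w)^[n] z0 + f.coeff 1 / 2 =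
        algebraMap ℚ_[p] K (Pool.Agent.H.MP_505b57_nt.orb c n) := by
      intro n
      induction n with
      | zero =>
        simp only [Function.iterate_zero, id, hz0, Pool.Agent.H.MP_505b57_nt.orb, map_zero]
        field_simp
        ring
      | succ n ih =>
        rw [Function.iterate_succ_apply', ← normal_eval f hdeg, ih,
          Pool.Agent.H.MP_505b57_nt.orb_succ, map_add, map_pow, hc]
    refine Set.Finite.of_finite_image (f := algebraMap ℚ_[p] K) ?_
      (algebraMap ℚ_[p] K).injective.injOn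
    refine (h1.image (fun w => f.coeff 2 * w + f.coeff 1 / 2)).subset ?_
    rintro _ ⟨_, ⟨n, rfl⟩, rfl⟩
    exact ⟨_, ⟨n, rfl⟩, h2 n⟩
  · ext g
    show AffConj (X ^ 2 + C (algebraMap ℚ_[p] K c)) g ↔ AffConj f g
    rw [hc]
    exact ⟨fun h => conj_trans (conj_normal f hdeg) h,
      fun h => conj_trans (conj_symm (conj_normal f hdeg)) h⟩

theorem result (p : ℕ) [Fact p.Prime] :
    Set.Finite
      ((fun f : (AlgebraicClosure ℚ_[p])[X] => {g : (AlgebraicClosure ℚ_[p])[X] | AffConj f g}) ''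
        {f : (AlgebraicClosure ℚ_[p])[X] | f.natDegree = 2 ∧ PCF f ∧
          ∀ σ : AlgebraicClosure ℚ_[p] ≃ₐ[ℚ_[p]] AlgebraicClosure ℚ_[p],
            AffConj f (f.map (σ : AlgebraicClosure ℚ_[p] →+* AlgebraicClosure ℚ_[p]))}) := by
  haveI : CharZero (AlgebraicClosure ℚ_[p]) :=
    charZero_of_injective_algebraMap (algebraMap ℚ_[p] (AlgebraicClosure ℚ_[p])).injective
  exact general p (AlgebraicClosure ℚ_[p])

end Pool.Agent.Results.MP_505b57_nt.QuadraticFinite
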